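import Pool.Agent.H90.G.S8.Y103.HRBase

/-!
# The complex conjugation of a rational ring of cycle classes
-/

open ComplexConjugate Module Submodule

namespace Pool.Agent.Y103

open Pool.Agent.W552 (RatSub exists_ratBasis)

variable {A : Type*} [Ring A] [Algebra ℂ A]

open Classical in
/-- The complex conjugate of an element of the complex span of `N j`. -/
noncomputable def cc (n : ℕ) (tr : A →ₗ[ℂ] ℂ) (ξ : A) (N : ℕ → A → Prop) (j : ℕ) (x : A) : A :=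
  if h : ∃ y ∈ DD N j, ∀ w, N j w →
    tr (y * w * ξ ^ (n - 2 * j)) = conj (tr (x * w * ξ ^ (n - 2 * j))) then h.choose else 0

namespace HRCore

variable {n : ℕ} {tr : A →ₗ[ℂ] ℂ} {ξ : A} {N : ℕ → A → Prop} {c : A → A}
  (H : HRCore n tr ξ N c)

include H

lemma conj_N {j : ℕ} (hj : 2 * j ≤ n) {x w : A} (hx : N j x) (hw : N j w) :
    conj (tr (x * w * ξ ^ (n - 2 * j))) = tr (x * w * ξ ^ (n - 2 * j)) := by
  obtain ⟨q, hq⟩ := H.trq (H.ntop hj hx hw)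
  rw [hq]
  simp

lemma cc_ex {j : ℕ} (hj : 2 * j ≤ n) {x : A} (hx : x ∈ DD N j) :
    ∃ y ∈ DD N j, ∀ w, N j w →
      tr (y * w * ξ ^ (n - 2 * j)) = conj (tr (x * w * ξ ^ (n - 2 * j))) := by
  refine dd_ind (p := fun x => ∃ y ∈ DD N j, ∀ w, N j w →
      tr (y * w * ξ ^ (n - 2 * j)) = conj (tr (x * w * ξ ^ (n - 2 * j)))) ?_ ?_ ?_ ?_ hx
  · exact ⟨0, zero_mem _, fun w _ => by simp⟩
  · intro x hx
    exact ⟨x, sub_dd hx, fun w hw => (H.conj_N hj hx hw).symm⟩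
  · rintro x x' _ _ ⟨y, hy, h1⟩ ⟨y', hy', h2⟩
    refine ⟨y + y', add_mem hy hy', fun w hw => ?_⟩
    rw [add_mul, add_mul, map_add, h1 w hw, h2 w hw, add_mul, add_mul, map_add tr, map_add]
  · rintro s x _ ⟨y, hy, h1⟩
    refine ⟨conj s • y, smul_mem _ _ hy, fun w hw => ?_⟩
    rw [smul_mul_assoc, smul_mul_assoc, map_smul, h1 w hw, smul_mul_assoc, smul_mul_assoc,
      map_smul, smul_eq_mul, smul_eq_mul, map_mul (starRingEnd ℂ)]

lemma cc_mem {j : ℕ} (hj : 2 * j ≤ n) {x : A} (hx : x ∈ DD N j) :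
    cc n tr ξ N j x ∈ DD N j := by
  have h := H.cc_ex hj hx
  rw [cc, dif_pos h]
  exact h.choose_spec.1

lemma cc_spec {j : ℕ} (hj : 2 * j ≤ n) {x : A} (hx : x ∈ DD N j) {w : A} (hw : N j w) :
    tr (cc n tr ξ N j x * w * ξ ^ (n - 2 * j)) = conj (tr (x * w * ξ ^ (n - 2 * j))) := by
  have h := H.cc_ex hj hx
  rw [cc, dif_pos h]
  exact h.choose_spec.2 w hw

lemma cc_eq {j : ℕ} (hj : 2 * j ≤ n) {x y : A} (hx : x ∈ DD N j) (hy : y ∈ DD N j)
    (h : ∀ w, N j w → tr (y * w * ξ ^ (n - 2 * j)) = conj (tr (x * w * ξ ^ (n - 2 * j)))) :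
    cc n tr ξ N j x = y := by
  rw [← sub_eq_zero]
  apply H.nd hj (sub_mem (H.cc_mem hj hx) hy)
  intro w hw
  rw [sub_mul, sub_mul, map_sub, H.cc_spec hj hx hw, h w hw, sub_self]

lemma cc_N {j : ℕ} (hj : 2 * j ≤ n) {x : A} (hx : N j x) : cc n tr ξ N j x = x :=
  H.cc_eq hj (sub_dd hx) (sub_dd hx) (fun _ hw => (H.conj_N hj hx hw).symm)

lemma cc_add {j : ℕ} (hj : 2 * j ≤ n) {x y : A} (hx : x ∈ DD N j) (hy : y ∈ DD N j) :
    cc n tr ξ N j (x + y) = cc n tr ξ N j x + cc n tr ξ N j y := by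
  apply H.cc_eq hj (add_mem hx hy) (add_mem (H.cc_mem hj hx) (H.cc_mem hj hy))
  intro w hw
  rw [add_mul, add_mul, map_add, H.cc_spec hj hx hw, H.cc_spec hj hy hw, add_mul, add_mul,
    map_add tr, map_add]

lemma cc_smul {j : ℕ} (hj : 2 * j ≤ n) (s : ℂ) {x : A} (hx : x ∈ DD N j) :
    cc n tr ξ N j (s • x) = conj s • cc n tr ξ N j x := by
  apply H.cc_eq hj (smul_mem _ _ hx) (smul_mem _ _ (H.cc_mem hj hx))
  intro w hw
  rw [smul_mul_assoc, smul_mul_assoc, map_smul, H.cc_spec hj hx hw, smul_mul_assoc,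
    smul_mul_assoc, map_smul, smul_eq_mul, smul_eq_mul, map_mul (starRingEnd ℂ)]

lemma cc_zero {j : ℕ} (hj : 2 * j ≤ n) : cc n tr ξ N j 0 = 0 := by
  have := H.cc_smul hj 0 (zero_mem (DD N j))
  simpa using this

lemma cc_cc {j : ℕ} (hj : 2 * j ≤ n) {x : A} (hx : x ∈ DD N j) :
    cc n tr ξ N j (cc n tr ξ N j x) = x := by
  refine dd_ind (p := fun x => cc n tr ξ N j (cc n tr ξ N j x) = x) ?_ ?_ ?_ ?_ hx
  · rw [H.cc_zero hj, H.cc_zero hj]
  · intro x hx; rw [H.cc_N hj hx, H.cc_N hj hx]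
  · intro x y hx hy h1 h2
    rw [H.cc_add hj hx hy, H.cc_add hj (H.cc_mem hj hx) (H.cc_mem hj hy), h1, h2]
  · intro s x hx h1
    rw [H.cc_smul hj s hx, H.cc_smul hj _ (H.cc_mem hj hx), h1, Complex.conj_conj]

/-- The complex conjugation is multiplicative. -/
lemma cc_mul {i j : ℕ} (hij : 2 * (i + j) ≤ n) {x y : A} (hx : x ∈ DD N i) (hy : y ∈ DD N j) :
    cc n tr ξ N (i + j) (x * y) = cc n tr ξ N i x * cc n tr ξ N j y := by
  have hi : 2 * i ≤ n := by omega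
  have hj : 2 * j ≤ n := by omega
  refine dd_ind (p := fun x => cc n tr ξ N (i + j) (x * y) =
    cc n tr ξ N i x * cc n tr ξ N j y) ?_ ?_ ?_ ?_ hx
  · rw [zero_mul, H.cc_zero hij, H.cc_zero hi, zero_mul]
  · intro x hx
    refine dd_ind (p := fun y => cc n tr ξ N (i + j) (x * y) =
      cc n tr ξ N i x * cc n tr ξ N j y) ?_ ?_ ?_ ?_ hy
    · rw [mul_zero, H.cc_zero hij, H.cc_zero hj, mul_zero]
    · intro y hy
      rw [H.cc_N hi hx, H.cc_N hj hy, H.cc_N hij (H.mul hx hy)]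
    · intro y y' hy hy' h1 h2
      rw [mul_add, H.cc_add hij (H.dd_mul (sub_dd hx) hy) (H.dd_mul (sub_dd hx) hy'), h1, h2,
        H.cc_add hj hy hy', mul_add]
    · intro s y hy h1
      rw [mul_smul_comm, H.cc_smul hij _ (H.dd_mul (sub_dd hx) hy), h1, H.cc_smul hj _ hy,
        mul_smul_comm]
  · intro x x' hx hx' h1 h2
    rw [add_mul, H.cc_add hij (H.dd_mul hx hy) (H.dd_mul hx' hy), h1, h2,
      H.cc_add hi hx hx', add_mul]
  · intro s x hx h1
    rw [smul_mul_assoc, H.cc_smul hij _ (H.dd_mul hx hy), h1, H.cc_smul hi _ hx,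
      smul_mul_assoc]

lemma cc_tr {j : ℕ} (hj : 2 * j ≤ n) {x y : A} (hx : x ∈ DD N j) (hy : y ∈ DD N j) :
    tr (cc n tr ξ N j x * cc n tr ξ N j y * ξ ^ (n - 2 * j)) =
      conj (tr (x * y * ξ ^ (n - 2 * j))) := by
  refine dd_ind (p := fun y => tr (cc n tr ξ N j x * cc n tr ξ N j y * ξ ^ (n - 2 * j)) =
      conj (tr (x * y * ξ ^ (n - 2 * j)))) ?_ ?_ ?_ ?_ hy
  · rw [H.cc_zero hj]; simp
  · intro y hy
    rw [H.cc_N hj hy, H.cc_spec hj hx hy]
  · intro y y' hy hy' h1 h2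
    rw [H.cc_add hj hy hy', mul_add, add_mul, map_add, h1, h2, mul_add, add_mul, map_add tr,
      map_add]
  · intro s y hy h1
    rw [H.cc_smul hj s hy, mul_smul_comm, smul_mul_assoc, map_smul, h1, mul_smul_comm,
      smul_mul_assoc, map_smul, smul_eq_mul, smul_eq_mul, map_mul (starRingEnd ℂ)]

lemma cc_tr' {j : ℕ} (hj : 2 * j ≤ n) {x y : A} (hx : x ∈ DD N j) (hy : y ∈ DD N j) :
    tr (cc n tr ξ N j x * y * ξ ^ (n - 2 * j)) =
      conj (tr (x * cc n tr ξ N j y * ξ ^ (n - 2 * j))) := by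
  rw [← H.cc_tr hj hx (H.cc_mem hj hy), H.cc_cc hj hy]

/-- The complex conjugation preserves primitivity. -/
lemma cc_prim {j : ℕ} (hj : 2 * j ≤ n) {x : A} (hx : x ∈ VV n ξ N j) :
    cc n tr ξ N j x ∈ VV n ξ N j := by
  rcases j with _ | j
  · exact H.dec0 (H.cc_mem hj hx.1)
  · obtain ⟨a, ha, b, hb, h⟩ := H.dec hj (H.cc_mem hj hx.1)
    have hb0 : b = 0 := by
      apply H.nd (by omega) hb
      intro w hw
      rw [← H.shift hj]
      have h1 : ξ * b = cc n tr ξ N (j + 1) x - a := by rw [h]; abel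
      have h2 : N (j + 1) (ξ * w) := by
        have := H.mul H.xi hw
        rwa [add_comm] at this
      rw [h1, sub_mul, sub_mul, map_sub, H.prim_orth ha, sub_zero, H.cc_spec hj hx.1 h2,
        H.prim_orth hx, map_zero]
    rw [h, hb0, mul_zero, add_zero]
    exact ha

/-- The `n`-linear form given by the antilinear involution is Hermitian. -/
lemma herm {j : ℕ} (hj : 2 * j ≤ n) {x y : A} (hx : x ∈ DD N j) (hy : y ∈ DD N j) :
    tr (y * c x * ξ ^ (n - 2 * j)) = conj (tr (x * c y * ξ ^ (n - 2 * j))) := by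
  rw [← H.ctr (H.dtop hj hx (H.cmem hy)), H.cmul, H.cmul, H.cpow, H.cinv hy,
    H.dd_comm (H.cmem hx)]

lemma cc_c_mem {j : ℕ} (hj : 2 * j ≤ n) {x : A} (hx : x ∈ VV n ξ N j) :
    cc n tr ξ N j (c x) ∈ VV n ξ N j := H.cc_prim hj (H.c_prim hx)

lemma selfadj {j : ℕ} (hj : 2 * j ≤ n) {x y : A} (hx : x ∈ DD N j) (hy : y ∈ DD N j) :
    tr (cc n tr ξ N j (c x) * c y * ξ ^ (n - 2 * j)) =
      tr (x * c (cc n tr ξ N j (c y)) * ξ ^ (n - 2 * j)) := by
  rw [H.cc_tr' hj (H.cmem hx) (H.cmem hy), ← H.ctr (H.dtop hj (H.cmem hx)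
    (H.cc_mem hj (H.cmem hy))), H.cmul, H.cmul, H.cpow, H.cinv hx]

/-- The positive definite Hermitian form on the primitive classes. -/
lemma posHerm {j : ℕ} (hj : 2 * j ≤ n) : PosHerm (fun x y : VV n ξ N j =>
    (-1 : ℂ) ^ j * tr ((x : A) * c (y : A) * ξ ^ (n - 2 * j))) where
  add x y z := by
    rw [coe_add, add_mul, add_mul, map_add, mul_add]
  smul a x y := by
    rw [coe_smul, smul_mul_assoc, smul_mul_assoc, map_smul, smul_eq_mul]
    ring
  symm x y := by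
    rw [H.herm hj x.2.1 y.2.1, map_mul (starRingEnd ℂ), map_pow (starRingEnd ℂ),
      map_neg (starRingEnd ℂ), map_one (starRingEnd ℂ)]
  pos x hx := by
    apply H.pos j hj _ x.2.1 x.2.2
    intro h0
    exact hx (Subtype.ext h0)

/-- The linear operator `x ↦ cc (c x)` on the primitive classes. -/
noncomputable def gV {j : ℕ} (hj : 2 * j ≤ n) : VV n ξ N j →ₗ[ℂ] VV n ξ N j where
  toFun x := ⟨cc n tr ξ N j (c x), H.cc_c_mem hj x.2⟩
  map_add' x y := by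
    apply Subtype.ext
    change cc n tr ξ N j (c (x + y)) = cc n tr ξ N j (c x) + cc n tr ξ N j (c y)
    rw [H.cadd, H.cc_add hj (H.cmem x.2.1) (H.cmem y.2.1)]
  map_smul' a x := by
    apply Subtype.ext
    change cc n tr ξ N j (c (a • (x : A))) = a • cc n tr ξ N j (c x)
    rw [H.csmul, H.cc_smul hj _ (H.cmem x.2.1), Complex.conj_conj]

lemma gV_apply {j : ℕ} (hj : 2 * j ≤ n) (x : VV n ξ N j) :
    (H.gV hj x : A) = cc n tr ξ N j (c x) := rfl

/-- The primitive classes have a basis of eigenvectors, orthonormal for the Hermitian form. -/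
lemma eigenbasis {j : ℕ} (hj : 2 * j ≤ n) :
    ∃ (b : Basis (Fin (finrank ℂ (VV n ξ N j))) ℂ (VV n ξ N j))
      (μ : Fin (finrank ℂ (VV n ξ N j)) → ℝ),
      (∀ i, cc n tr ξ N j (c (b i)) = (μ i : ℂ) • (b i : A)) ∧
      ∀ i k, (-1 : ℂ) ^ j * tr ((b i : A) * c (b k : A) * ξ ^ (n - 2 * j)) =
        if i = k then 1 else 0 := by
  have := H.fin
  obtain ⟨b, μ, h1, h2⟩ := (H.posHerm hj).spec (H.gV hj) (by
    intro x y
    change (-1 : ℂ) ^ j * tr (cc n tr ξ N j (c x) * c y * ξ ^ (n - 2 * j)) =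
      (-1 : ℂ) ^ j * tr (x * c (cc n tr ξ N j (c y)) * ξ ^ (n - 2 * j))
    rw [H.selfadj hj x.2.1 y.2.1])
  refine ⟨b, μ, fun i => ?_, h2⟩
  exact congrArg Subtype.val (h1 i)

end HRCore

end Pool.Agent.Y103
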