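import Pool.Agent.H90.G.S8.W552.TautStmt

/-!
# Rings generated by algebraic classes of low codimension: definitions
-/

open CategoryTheory AlgebraicGeometry

universe u v

namespace Pool.Agent.Y103

/-- The products of elements of the sets `R i`, where `1 ≤ i ≤ m` and the elements of `R i` count
with the degree `i`; `j` is the degree of the product. -/
inductive IsMonomial {A : Type*} [Monoid A] (R : ℕ → Set A) (m : ℕ) : ℕ → A → Prop
  | one : IsMonomial R m 0 1
  | mul {i j : ℕ} {a b : A} : 1 ≤ i → i ≤ m → a ∈ R i → IsMonomial R m j b →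
      IsMonomial R m (i + j) (a * b)

section Abs

variable {K : Type*} [Field K] {A : Type*} [Ring A] [Algebra K A]

/-- The part of degree `j` of the `K`-algebra generated by the sets `R i`, `1 ≤ i ≤ m`. -/
def genRing (K : Type*) [Field K] {A : Type*} [Ring A] [Algebra K A] (R : ℕ → Set A) (m : ℕ)
    (j : ℕ) : Submodule K A := Submodule.span K {x | IsMonomial R m j x}

/-- The element `x` is a homogeneous element, of degree at most `b`, of the `K`-algebra generated
by the sets `R i`, `1 ≤ i ≤ m`. -/
def InRing (K : Type*) [Field K] {A : Type*} [Ring A] [Algebra K A] (R : ℕ → Set A) (m b : ℕ)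
    (x : A) : Prop := ∃ j ≤ b, x ∈ genRing K R m j

/-- The map `c` sends the generators into the algebra and preserves their degrees. -/
def RingStable (K : Type*) [Field K] {A : Type*} [Ring A] [Algebra K A] (R : ℕ → Set A) (m : ℕ)
    (c : A → A) : Prop := ∀ i, 1 ≤ i → i ≤ m → ∀ a ∈ R i, c a ∈ genRing K R m i

/-- The Lefschetz decomposition for the element `ξ` holds in the algebra generated by the sets
`R i`, `1 ≤ i ≤ m`, in degrees up to the middle degree `n / 2`: every element of it of degree
`j + 1`, where `2 (j + 1) ≤ n`, is the sum of a primitive element and of the product of `ξ` with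
an element of the algebra of degree `j`. -/
def LefschetzStable (K : Type*) [Field K] {A : Type*} [Ring A] [Algebra K A] (R : ℕ → Set A)
    (m n : ℕ) (ξ : A) : Prop :=
  ∀ j, 2 * (j + 1) ≤ n → ∀ a ∈ genRing K R m (j + 1), ∃ b ∈ genRing K R m j,
    ξ ^ (n - 2 * (j + 1) + 1) * (a - ξ * b) = 0

/-- A Hodge-Riemann involution of the cohomology algebra `A` of a variety of dimension `n`, with
the subspaces `gr i` of degree `i` and the trace `tr`, for the class `ξ` of a divisor: with the
coefficient field identified with the complex numbers, an additive and multiplicative map `c`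
which is semilinear with respect to the complex conjugation, fixes `ξ` and is an involution in the
even degrees, such that `(-1) ^ i tr(a · c(a) · ξ ^ (n - 2 i)) > 0` for every nonzero primitive
class `a` of degree `2 i ≤ n`. (If the variety and the divisor lift to characteristic zero, the
map sending `a` of Hodge type `(p, q)` to `√-1 ^ (q - p)` times its complex conjugate has these
properties.) -/
structure IsHodgeRiemann (gr : ℕ → Submodule K A) (n : ℕ) (tr : A →ₗ[K] K) (ξ : A)
    (ι : K ≃+* ℂ) (c : A → A) : Prop where
  add : ∀ a b, c (a + b) = c a + c b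
  smul : ∀ (s : K) (a : A), c (s • a) = ι.symm (starRingEnd ℂ (ι s)) • c a
  mul : ∀ a b, c (a * b) = c a * c b
  polar : c ξ = ξ
  invol : ∀ i, ∀ a ∈ gr (2 * i), c (c a) = a
  pos : ∀ i, 2 * i ≤ n → ∀ a ∈ gr (2 * i), ξ ^ (n - 2 * i + 1) * a = 0 → a ≠ 0 →
    0 < (-1 : ℝ) ^ i * (ι (tr (a * c a * ξ ^ (n - 2 * i)))).re

end Abs

open Pool.Agent.H914 Pool.Agent.H914.VarClass Pool.Agent.H914.VarClass.Obj
  Pool.Agent.H914.WeilCohomology Pool.Agent.W552

variable {k : Type u} [Field k] {𝒱 : VarClass k} {ops : CycleOps 𝒱}

/-- The map `c` is a Hodge-Riemann involution for the variety `X` and the divisor `D`. -/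
def HodgeRiemann (W : WeilCohomology.{u, v} ops) (X : 𝒱.Obj) (D : X.Cycles) (ι : W.K ≃+* ℂ)
    (c : W.H X → W.H X) : Prop :=
  IsHodgeRiemann (W.gr X) X.dim (W.tr X) (W.cl X D) ι c

/-- The standard conjectures of Hodge type and `D` for the cycles on `X` whose class has the
property `T`. -/
def StdFor (W : WeilCohomology.{u, v} ops) (X : 𝒱.Obj) (D : X.Cycles) (T : W.H X → Prop) : Prop :=
  HodgeTypeFor W X D T ∧ HomEqNumFor W X T

end Pool.Agent.Y103
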