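import Pool.Agent.H90.G.S8.Y103.HRRat

/-!
# Positivity in all degrees
-/

open ComplexConjugate Module Submodule

namespace Pool.Agent.Y103

/-- If a space is spanned by eigenvectors with positive eigenvalues, all eigenvalues are
positive. -/
theorem eig_pos {V : Type*} [AddCommGroup V] [Module ℂ V] (g : V →ₗ[ℂ] V)
    (hs : ∀ x : V, x ∈ span ℂ {v | ∃ μ : ℝ, 0 < μ ∧ g v = (μ : ℂ) • v}) {v : V} (hv : v ≠ 0)
    {l : ℂ} (h : g v = l • v) : ∃ μ : ℝ, 0 < μ ∧ l = μ := by
  by_contra hl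
  push Not at hl
  have hind := (Module.End.eigenspaces_iSupIndep g) l
  have htop : (⊤ : Submodule ℂ V) ≤ ⨆ k, ⨆ (_ : k ≠ l), Module.End.eigenspace g k := by
    intro x _
    refine (span_le.2 ?_) (hs x)
    rintro w ⟨μ, hμ, hw⟩
    have h1 : Module.End.eigenspace g (μ : ℂ) ≤
        ⨆ k, ⨆ (_ : k ≠ l), Module.End.eigenspace g k :=
      le_iSup₂_of_le (μ : ℂ) (Ne.symm (hl μ hμ)) le_rfl
    exact h1 (Module.End.mem_eigenspace_iff.2 hw)
  have h2 : Module.End.eigenspace g l = ⊥ := by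
    have h3 := hind.mono_right htop
    exact disjoint_top.1 h3
  have h4 : v ∈ Module.End.eigenspace g l := Module.End.mem_eigenspace_iff.2 h
  rw [h2] at h4
  exact hv ((mem_bot ℂ).1 h4)

variable {A : Type*} [Ring A] [Algebra ℂ A]

namespace HRCore

variable {n : ℕ} {tr : A →ₗ[ℂ] ℂ} {ξ : A} {N : ℕ → A → Prop} {c : A → A}
  (H : HRCore n tr ξ N c)

/-- The eigenvectors with positive eigenvalues. -/
def EE (n : ℕ) (tr : A →ₗ[ℂ] ℂ) (ξ : A) (N : ℕ → A → Prop) (c : A → A) (j : ℕ) (v : A) : Prop :=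
  v ∈ DD N j ∧ ∃ μ : ℝ, 0 < μ ∧ cc n tr ξ N j (c v) = (μ : ℂ) • v

include H

lemma ee_mul {i j : ℕ} (hij : 2 * (i + j) ≤ n) {v w : A} (hv : EE n tr ξ N c i v)
    (hw : EE n tr ξ N c j w) : EE n tr ξ N c (i + j) (v * w) := by
  obtain ⟨hv, μ, hμ, h1⟩ := hv
  obtain ⟨hw, ν, hν, h2⟩ := hw
  refine ⟨H.dd_mul hv hw, μ * ν, mul_pos hμ hν, ?_⟩
  rw [H.cmul, H.cc_mul hij (H.cmem hv) (H.cmem hw), h1, h2, smul_mul_smul_comm,
    Complex.ofReal_mul]

lemma ee_xi (hn : 2 ≤ n) : EE n tr ξ N c 1 ξ := by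
  refine ⟨sub_dd H.xi, 1, one_pos, ?_⟩
  rw [H.cxi, H.cc_N (by omega) H.xi, Complex.ofReal_one, one_smul]

lemma span_mul_mem {i j : ℕ} (hij : 2 * (i + j) ≤ n) {v w : A}
    (hv : v ∈ span ℂ {v | EE n tr ξ N c i v}) (hw : w ∈ span ℂ {v | EE n tr ξ N c j v}) :
    v * w ∈ span ℂ {v | EE n tr ξ N c (i + j) v} := by
  refine span_induction (p := fun v _ => v * w ∈ span ℂ {v | EE n tr ξ N c (i + j) v})
    ?_ ?_ ?_ ?_ hv
  · intro v hv
    refine span_induction (p := fun w _ => v * w ∈ span ℂ {v | EE n tr ξ N c (i + j) v})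
      ?_ ?_ ?_ ?_ hw
    · intro w hw; exact subset_span (H.ee_mul hij hv hw)
    · rw [mul_zero]; exact zero_mem _
    · intro x y _ _ h1 h2; rw [mul_add]; exact add_mem h1 h2
    · intro s x _ h1; rw [mul_smul_comm]; exact smul_mem _ _ h1
  · rw [zero_mul]; exact zero_mem _
  · intro x y _ _ h1 h2; rw [add_mul]; exact add_mem h1 h2
  · intro s x _ h1; rw [smul_mul_assoc]; exact smul_mem _ _ h1

/-- If the form is positive on rational primitive classes, the primitive classes are spanned by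
eigenvectors with positive eigenvalues. -/
lemma vv_low {j : ℕ} (hj : 2 * j ≤ n) (hlow : ∀ a, N j a → ξ ^ (n - 2 * j + 1) * a = 0 → a ≠ 0 →
    ∃ q : ℚ, 0 < q ∧ (-1 : ℂ) ^ j * tr (a * a * ξ ^ (n - 2 * j)) = q) {x : A}
    (hx : x ∈ VV n ξ N j) : x ∈ span ℂ {v | EE n tr ξ N c j v} := by
  obtain ⟨b, μ, h1, h2⟩ := H.eigenbasis hj
  have hE : ∀ i, EE n tr ξ N c j (b i : A) := by
    intro i
    refine ⟨(b i).2.1, μ i, ?_, h1 i⟩
    have hb0 : (b i : A) ≠ 0 := fun h => b.ne_zero i (Subtype.ext h)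
    have h3 := H.lowpos hj hlow (H.c_prim (b i).2) (fun h => hb0 (H.c_inj (b i).2.1 h))
    rw [h1, smul_mul_assoc, smul_mul_assoc, map_smul, smul_eq_mul, mul_left_comm, h2,
      if_pos rfl, mul_one, Complex.ofReal_re] at h3
    exact h3
  have h4 := b.sum_repr ⟨x, hx⟩
  have h5 : x = ∑ i, b.repr ⟨x, hx⟩ i • (b i : A) := by
    have h6 := congrArg (VV n ξ N j).subtype h4
    rw [map_sum] at h6
    exact h6.symm
  rw [h5]
  exact sum_mem (fun i _ => smul_mem _ _ (subset_span (hE i)))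

/-- The operator on all classes. -/
noncomputable def gD {j : ℕ} (hj : 2 * j ≤ n) : DD N j →ₗ[ℂ] DD N j where
  toFun x := ⟨cc n tr ξ N j (c x), H.cc_mem hj (H.cmem x.2)⟩
  map_add' x y := by
    apply Subtype.ext
    change cc n tr ξ N j (c (x + y)) = cc n tr ξ N j (c x) + cc n tr ξ N j (c y)
    rw [H.cadd, H.cc_add hj (H.cmem x.2) (H.cmem y.2)]
  map_smul' a x := by
    apply Subtype.ext
    change cc n tr ξ N j (c (a • (x : A))) = a • cc n tr ξ N j (c x)
    rw [H.csmul, H.cc_smul hj _ (H.cmem x.2), Complex.conj_conj]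

/-- All eigenvalues are positive. -/
lemma eigenvalue_pos {j : ℕ} (hj : 2 * j ≤ n)
    (hE : ∀ x ∈ DD N j, x ∈ span ℂ {v | EE n tr ξ N c j v}) {v : A} (hv : v ∈ DD N j) (hv0 : v ≠ 0) {l : ℝ}
    (h : cc n tr ξ N j (c v) = (l : ℂ) • v) : 0 < l := by
  obtain ⟨μ, hμ, hl⟩ := eig_pos (H.gD hj) (by
    intro x
    have h1 := hE x x.2
    have key : ∀ y (hy : y ∈ span ℂ {v | EE n tr ξ N c j v}), ∀ (hyD : y ∈ DD N j),
        (⟨y, hyD⟩ : DD N j) ∈ span ℂ {v | ∃ μ : ℝ, 0 < μ ∧ (H.gD hj) v = (μ : ℂ) • v} := by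
      intro y hy
      refine span_induction (p := fun y _ => ∀ (hyD : y ∈ DD N j),
        (⟨y, hyD⟩ : DD N j) ∈ span ℂ {v | ∃ μ : ℝ, 0 < μ ∧ (H.gD hj) v = (μ : ℂ) • v})
        ?_ ?_ ?_ ?_ hy
      · rintro v ⟨_, μ, hμ, h2⟩ hyD
        exact subset_span ⟨μ, hμ, Subtype.ext h2⟩
      · intro hyD
        exact zero_mem _
      · intro a b ha hb h1 h2 hyD
        have hE : span ℂ {v | EE n tr ξ N c j v} ≤ DD N j := span_le.2 (fun v hv => hv.1)
        exact add_mem (h1 (hE ha)) (h2 (hE hb))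
      · intro s a ha h1 hyD
        have hE : span ℂ {v | EE n tr ξ N c j v} ≤ DD N j := span_le.2 (fun v hv => hv.1)
        exact smul_mem _ s (h1 (hE ha))
    exact key x h1 x.2) (v := ⟨v, hv⟩) (fun h0 => hv0 (congrArg Subtype.val h0))
    (l := (l : ℂ)) (Subtype.ext h)
  rw [Complex.ofReal_inj] at hl
  rw [hl]
  exact hμ

/-- **The form given by the complex conjugation is positive definite on the primitive
classes.** -/
theorem main {j : ℕ} (hj : 2 * j ≤ n) (hE : ∀ x ∈ DD N j, x ∈ span ℂ {v | EE n tr ξ N c j v})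
    {z : A} (hz : z ∈ VV n ξ N j) (hz0 : z ≠ 0) :
    0 < ((-1 : ℂ) ^ j * tr (z * cc n tr ξ N j z * ξ ^ (n - 2 * j))).re := by
  obtain ⟨b, μ, h1, h2⟩ := H.eigenbasis hj
  have hμ : ∀ i, 0 < μ i := by
    intro i
    exact H.eigenvalue_pos hj hE (b i).2.1 (fun h => b.ne_zero i (Subtype.ext h)) (h1 i)
  set y : VV n ξ N j := ⟨c z, H.c_prim hz⟩ with hy
  have hzy : c (y : A) = z := H.cinv hz.1
  have hy0 : y ≠ 0 := by
    intro h0
    apply hz0
    rw [← hzy, h0]
    exact H.cc0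
  set t := b.repr y with ht
  -- the value
  have hh := H.posHerm hj
  have hcomm : z * cc n tr ξ N j z * ξ ^ (n - 2 * j) =
      cc n tr ξ N j (c y) * c (y : A) * ξ ^ (n - 2 * j) := by
    rw [hzy, H.dd_comm hz.1]
  have hgy : H.gV hj y = ∑ i, (t i * μ i) • b i := by
    have h4 := b.sum_repr y
    conv_lhs => rw [← h4]
    rw [map_sum]
    apply Finset.sum_congr rfl
    intro i _
    rw [map_smul, mul_smul]
    congr 1
    exact Subtype.ext (h1 i)
  have hyy : y = ∑ i, t i • b i := (b.sum_repr y).symm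
  set h : VV n ξ N j → VV n ξ N j → ℂ := fun x y =>
    (-1 : ℂ) ^ j * tr ((x : A) * c (y : A) * ξ ^ (n - 2 * j)) with hhdef
  have hval : (-1 : ℂ) ^ j * tr (z * cc n tr ξ N j z * ξ ^ (n - 2 * j)) =
      h (H.gV hj y) y := by
    rw [hcomm]
    rfl
  have hsum1 : ∀ (s : Finset (Fin (finrank ℂ (VV n ξ N j)))) (a : _ → ℂ) (w : VV n ξ N j),
      h (∑ i ∈ s, a i • b i) w = ∑ i ∈ s, a i * h (b i) w := by
    intro s a w
    classical
    induction s using Finset.induction_on with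
    | empty =>
      rw [Finset.sum_empty, Finset.sum_empty]
      have := hh.smul 0 0 w
      rwa [zero_smul, zero_mul] at this
    | insert k s hk ih =>
      rw [Finset.sum_insert hk, Finset.sum_insert hk, ← ih]
      have e1 := hh.add (a k • b k) (∑ i ∈ s, a i • b i) w
      have e2 := hh.smul (a k) (b k) w
      change h _ _ = h _ _ + h _ _ at e1
      change h _ _ = _ * h _ _ at e2
      rw [e1, e2]
  have hb : ∀ i, h (b i) y = conj (t i) := by
    intro i
    have e1 : h (b i) y = conj (h y (b i)) := hh.symm y (b i)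
    rw [e1]
    congr 1
    conv_lhs => rw [hyy]
    rw [hsum1, Finset.sum_eq_single i]
    · have : h (b i) (b i) = 1 := by
        have := h2 i i
        rwa [if_pos rfl] at this
      rw [this, mul_one]
    · intro k _ hk
      have : h (b k) (b i) = 0 := by
        have := h2 k i
        rwa [if_neg hk] at this
      rw [this, mul_zero]
    · intro h0; exact absurd (Finset.mem_univ _) h0
  have hfin : (-1 : ℂ) ^ j * tr (z * cc n tr ξ N j z * ξ ^ (n - 2 * j)) =
      ((∑ i, Complex.normSq (t i) * μ i : ℝ) : ℂ) := by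
    rw [hval, hgy, hsum1, Complex.ofReal_sum]
    apply Finset.sum_congr rfl
    intro i _
    rw [hb, Complex.ofReal_mul, Complex.normSq_eq_conj_mul_self]
    ring
  rw [hfin, Complex.ofReal_re]
  obtain ⟨k, hk⟩ : ∃ k, t k ≠ 0 := by
    by_contra h0
    push Not at h0
    apply hy0
    rw [hyy]
    apply Finset.sum_eq_zero
    intro k _
    rw [h0 k, zero_smul]
  apply Finset.sum_pos'
  · intro k _
    exact mul_nonneg (Complex.normSq_nonneg _) (hμ k).le
  · exact ⟨k, Finset.mem_univ _, mul_pos (Complex.normSq_pos.2 hk) (hμ k)⟩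

/-- **Positivity for the rational classes.** -/
theorem pos_of_rat {j : ℕ} (hj : 2 * j ≤ n)
    (hE : ∀ x ∈ DD N j, x ∈ span ℂ {v | EE n tr ξ N c j v}) {z : A} (hz : z ∈ DD N j)
    (hp : ξ ^ (n - 2 * j + 1) * z = 0) (hz0 : z ≠ 0)
    (hr : ∀ w, N j w → ∃ q : ℚ, tr (z * w * ξ ^ (n - 2 * j)) = q) :
    0 < ((-1 : ℂ) ^ j * tr (z * z * ξ ^ (n - 2 * j))).re := by
  have h1 := H.main hj hE ⟨hz, hp⟩ hz0
  rwa [H.cc_N hj (H.mem_N hj hz hr)] at h1

end HRCore

namespace HRData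

open HRCore

variable {n m : ℕ} {tr : A →ₗ[ℂ] ℂ} {ξ : A} {N : ℕ → A → Prop} {c : A → A}
  (H : HRData n m tr ξ N c)

include H

/-- The classes are spanned by eigenvectors with positive eigenvalues. -/
lemma dd_ee (j : ℕ) (hj : 2 * j ≤ n) : ∀ x ∈ DD N j, x ∈ span ℂ {v | EE n tr ξ N c j v} := by
  induction j using Nat.strong_induction_on with
  | _ j ih =>
    intro x hx
    by_cases hjm : j ≤ m
    · rcases j with _ | j
      · exact H.vv_low hj (H.low 0 hjm hj) (H.dec0 hx)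
      · obtain ⟨a, ha, b, hb, rfl⟩ := H.dec hj hx
        refine add_mem (H.vv_low hj (H.low _ hjm hj) ha) ?_
        have := H.span_mul_mem (i := 1) (j := j) (by omega)
          (subset_span (H.ee_xi (by omega))) (ih j (by omega) (by omega) b hb)
        rwa [add_comm] at this
    · push Not at hjm
      refine dd_ind (p := fun x => x ∈ span ℂ {v | EE n tr ξ N c j v}) (zero_mem _) ?_
        (fun x y _ _ h1 h2 => add_mem h1 h2) (fun s x _ h1 => smul_mem _ _ h1) hx
      intro x hx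
      refine (span_le.2 ?_) (H.gen hjm hx)
      rintro _ ⟨i, a, b, hi1, hi2, hij, ha, hb, rfl⟩
      have := H.span_mul_mem (i := i) (j := j - i) (by omega)
        (ih i (by omega) (by omega) a (sub_dd ha))
        (ih (j - i) (by omega) (by omega) b (sub_dd hb))
      rwa [show i + (j - i) = j by omega] at this

end HRData

end Pool.Agent.Y103
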