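import Pool.Agent.H90.G.S8.Y103.HRConj

/-!
# The rational structure of the complex span of the classes
-/

open ComplexConjugate Module Submodule

namespace Pool.Agent.Y103

open Pool.Agent.W552 (RatSub exists_ratBasis)

/-- An element of the span of a rational structure with rational products is rational, if the
form is nondegenerate on the span. -/
theorem mem_of_rat {A : Type*} [AddCommGroup A] [Module ℂ A] [Module.Finite ℂ A] {M : A → Prop}
    (hM : RatSub ℂ M) (β : A →ₗ[ℂ] A →ₗ[ℂ] ℂ)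
    (hrat : ∀ x y, M x → M y → ∃ q : ℚ, β x y = q)
    (hnd : ∀ x ∈ span ℂ {y | M y}, (∀ y, M y → β x y = 0) → x = 0) {x : A}
    (hx : x ∈ span ℂ {y | M y}) (hxr : ∀ y, M y → ∃ q : ℚ, β x y = q) : M x := by
  classical
  obtain ⟨S, hSA, hSspan, hSli⟩ := exists_linearIndependent ℂ {v | M v}
  have hfin : S.Finite := hSli.setFinite
  have := hfin.fintype
  have hSc : ∀ i : S, M (i : A) := fun i => hSA i.2
  choose g hg using fun i k : S => hrat _ _ (hSc i) (hSc k)
  choose r hr using fun i : S => hxr _ (hSc i)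
  set C : (S → ℚ) → A := fun t => ∑ i : S, (t i : ℂ) • (i : A) with hC
  have hCM : ∀ t, M (C t) := fun t => hM.sum _ (fun i _ => hM.smul _ (hSc i))
  have hβ : ∀ t (k : S), β (C t) k = ((∑ i, t i * g i k : ℚ) : ℂ) := by
    intro t k
    rw [hC]
    beta_reduce
    rw [map_sum β, LinearMap.sum_apply, Rat.cast_sum]
    apply Finset.sum_congr rfl
    intro i _
    rw [map_smul, LinearMap.smul_apply, hg i k, smul_eq_mul, Rat.cast_mul]
  have hext : ∀ y ∈ span ℂ {y | M y}, (∀ k : S, β y k = 0) → y = 0 := by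
    intro y hy h0
    apply hnd y hy
    intro w hw
    have hw' : w ∈ span ℂ S := by rw [hSspan]; exact subset_span hw
    refine span_induction (p := fun w _ => β y w = 0) ?_ ?_ ?_ ?_ hw'
    · intro w hw; exact h0 ⟨w, hw⟩
    · rw [map_zero]
    · intro a b _ _ h1 h2; rw [map_add, h1, h2, add_zero]
    · intro s a _ h1; rw [map_smul, h1, smul_zero]
  let L : (S → ℚ) →ₗ[ℚ] (S → ℚ) :=
    { toFun := fun t k => ∑ i, t i * g i k
      map_add' := by
        intro t t'
        funext k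
        simp only [Pi.add_apply, add_mul, Finset.sum_add_distrib]
      map_smul' := by
        intro a t
        funext k
        simp only [Pi.smul_apply, smul_eq_mul, RingHom.id_apply, Finset.mul_sum, mul_assoc] }
  have hLinj : Function.Injective L := by
    rw [injective_iff_map_eq_zero]
    intro t ht
    have h0 : C t = 0 := by
      apply hext _ (subset_span (hCM t))
      intro k
      rw [hβ]
      have := congrFun ht k
      change ∑ i, t i * g i k = 0 at this
      rw [this, Rat.cast_zero]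
    funext i
    have := Fintype.linearIndependent_iff.1 hSli (fun i => (t i : ℂ)) h0 i
    exact_mod_cast this
  obtain ⟨t, ht⟩ := (LinearMap.injective_iff_surjective.1 hLinj) r
  have hxt : x = C t := by
    rw [← sub_eq_zero]
    apply hext _ (sub_mem hx (subset_span (hCM t)))
    intro k
    rw [map_sub, LinearMap.sub_apply, hr, hβ]
    have := congrFun ht k
    change ∑ i, t i * g i k = r k at this
    rw [this, sub_self]
  rw [hxt]
  exact hCM t

variable {A : Type*} [Ring A] [Algebra ℂ A]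

namespace HRCore

variable {n : ℕ} {tr : A →ₗ[ℂ] ℂ} {ξ : A} {N : ℕ → A → Prop} {c : A → A}
  (H : HRCore n tr ξ N c)

/-- The bilinear form. -/
noncomputable def bil (tr : A →ₗ[ℂ] ℂ) (ξ : A) (r : ℕ) (s : ℂ) : A →ₗ[ℂ] A →ₗ[ℂ] ℂ :=
  LinearMap.mk₂ ℂ (fun x y => s * tr (x * y * ξ ^ r))
    (by intro x x' y; rw [add_mul, add_mul, map_add, mul_add])
    (by intro a x y; rw [smul_mul_assoc, smul_mul_assoc, map_smul, smul_eq_mul, smul_eq_mul]; ring)
    (by intro x y y'; rw [mul_add, add_mul, map_add, mul_add])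
    (by intro a x y; rw [mul_smul_comm, smul_mul_assoc, map_smul, smul_eq_mul, smul_eq_mul]; ring)

lemma bil_apply (r : ℕ) (s : ℂ) (x y : A) : bil tr ξ r s x y = s * tr (x * y * ξ ^ r) := rfl

include H

/-- The elements of the complex span with rational products are rational. -/
theorem mem_N {j : ℕ} (hj : 2 * j ≤ n) {x : A} (hx : x ∈ DD N j)
    (h : ∀ w, N j w → ∃ q : ℚ, tr (x * w * ξ ^ (n - 2 * j)) = q) : N j x := by
  have := H.fin
  refine mem_of_rat (H.rat j) (bil tr ξ (n - 2 * j) 1) ?_ ?_ hx ?_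
  · intro x y hx hy
    rw [bil_apply, one_mul]
    exact H.trq (H.ntop hj hx hy)
  · intro x hx h0
    apply H.nd hj hx
    intro y hy
    have := h0 y hy
    rwa [bil_apply, one_mul] at this
  · intro y hy
    rw [bil_apply, one_mul]
    exact h y hy

/-- The Lefschetz decomposition of a rational class is rational. -/
lemma decN {j : ℕ} (hj : 2 * (j + 1) ≤ n) {a : A} (ha : N (j + 1) a) :
    ∃ a₀ ∈ VV n ξ N (j + 1), N (j + 1) a₀ ∧ ∃ b, N j b ∧ a = a₀ + ξ * b := by
  obtain ⟨a₀, ha₀, b, hb, h⟩ := H.dec hj (sub_dd ha)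
  have hbN : N j b := by
    apply H.mem_N (by omega) hb
    intro w hw
    have h2 : N (j + 1) (ξ * w) := by
      have := H.mul H.xi hw
      rwa [add_comm] at this
    obtain ⟨q, hq⟩ := H.trq (H.ntop hj ha h2)
    refine ⟨q, ?_⟩
    rw [← H.shift hj, show ξ * b = a - a₀ by rw [h]; abel, sub_mul, sub_mul, map_sub,
      H.prim_orth ha₀, sub_zero, hq]
  refine ⟨a₀, ha₀, ?_, b, hbN, h⟩
  have h3 : a₀ = a - ξ * b := by rw [h]; abel
  rw [h3]
  have h2 : N (j + 1) (ξ * b) := by
    have := H.mul H.xi hbN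
    rwa [add_comm] at this
  exact (H.rat _).sub ha h2

/-- Uniqueness of the Lefschetz decomposition. -/
lemma dec_unique {j : ℕ} (hj : 2 * (j + 1) ≤ n) {a : A} (ha : a ∈ VV n ξ N (j + 1)) {b : A}
    (hb : b ∈ DD N j) (h : a + ξ * b = 0) : a = 0 := by
  have hb0 : b = 0 := by
    apply H.nd' (by omega) hb
    intro w _
    rw [← H.shift hj, show ξ * b = 0 - a by rw [← h]; abel, sub_mul, sub_mul, map_sub,
      H.prim_orth ha, zero_mul, zero_mul, map_zero, sub_zero]
  rw [hb0, mul_zero, add_zero] at h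
  exact h

/-- The primitive classes are spanned by the rational primitive classes. -/
lemma vv_le {j : ℕ} (hj : 2 * j ≤ n) :
    VV n ξ N j ≤ span ℂ {x | N j x ∧ ξ ^ (n - 2 * j + 1) * x = 0} := by
  rcases j with _ | j
  · intro x hx
    refine span_mono ?_ hx.1
    intro y hy
    exact ⟨hy, (H.dec0 (sub_dd hy)).2⟩
  · intro x hx
    have key : ∃ x₀ ∈ span ℂ {x | N (j + 1) x ∧ ξ ^ (n - 2 * (j + 1) + 1) * x = 0},
        x₀ ∈ VV n ξ N (j + 1) ∧ ∃ b ∈ DD N j, x = x₀ + ξ * b := by
      refine dd_ind (p := fun x => ∃ x₀ ∈ span ℂ {x | N (j + 1) x ∧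
        ξ ^ (n - 2 * (j + 1) + 1) * x = 0},
        x₀ ∈ VV n ξ N (j + 1) ∧ ∃ b ∈ DD N j, x = x₀ + ξ * b) ?_ ?_ ?_ ?_ hx.1
      · exact ⟨0, zero_mem _, zero_mem _, 0, zero_mem _, by simp⟩
      · intro x hx
        obtain ⟨a₀, ha₀, h1, b, hb, h⟩ := H.decN hj hx
        exact ⟨a₀, subset_span ⟨h1, ha₀.2⟩, ha₀, b, sub_dd hb, h⟩
      · rintro x y _ _ ⟨x₀, h1, h2, b, hb, rfl⟩ ⟨y₀, h3, h4, b', hb', rfl⟩
        exact ⟨x₀ + y₀, add_mem h1 h3, add_mem h2 h4, b + b', add_mem hb hb', by
          rw [mul_add]; abel⟩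
      · rintro s x _ ⟨x₀, h1, h2, b, hb, rfl⟩
        exact ⟨s • x₀, smul_mem _ _ h1, smul_mem _ _ h2, s • b, smul_mem _ _ hb, by
          rw [smul_add, mul_smul_comm]⟩
    obtain ⟨x₀, h1, h2, b, hb, h⟩ := key
    have h3 : x - x₀ = 0 := by
      apply H.dec_unique hj (sub_mem hx h2) (neg_mem hb)
      rw [mul_neg, h]
      abel
    rw [sub_eq_zero.1 h3]
    exact h1

/-- Positivity of the form given by the complex conjugation, if it is positive on rational
classes. -/
lemma lowpos {j : ℕ} (hj : 2 * j ≤ n) (hlow : ∀ a, N j a → ξ ^ (n - 2 * j + 1) * a = 0 → a ≠ 0 →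
    ∃ q : ℚ, 0 < q ∧ (-1 : ℂ) ^ j * tr (a * a * ξ ^ (n - 2 * j)) = q) {y : A}
    (hy : y ∈ VV n ξ N j) (hy0 : y ≠ 0) :
    0 < ((-1 : ℂ) ^ j * tr (cc n tr ξ N j y * y * ξ ^ (n - 2 * j))).re := by
  have := H.fin
  set M : A → Prop := fun x => N j x ∧ ξ ^ (n - 2 * j + 1) * x = 0 with hM
  have hMr : RatSub ℂ M :=
    { zero := ⟨(H.rat j).zero, mul_zero _⟩
      add := fun {x y} hx hy => ⟨(H.rat j).add hx.1 hy.1, by rw [mul_add, hx.2, hy.2, add_zero]⟩
      smul := fun q {x} hx => ⟨(H.rat j).smul q hx.1, by rw [mul_smul_comm, hx.2, smul_zero]⟩ }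
  have hrat : ∀ x y, M x → M y →
      ∃ q : ℚ, bil tr ξ (n - 2 * j) ((-1) ^ j) x y = q := by
    intro x y hx hy
    obtain ⟨q, hq⟩ := H.trq (H.ntop hj hx.1 hy.1)
    refine ⟨(-1) ^ j * q, ?_⟩
    rw [bil_apply, hq]
    push_cast
    rfl
  obtain ⟨d, e, w, he, hw, horth, hspan⟩ := exists_ratBasis hMr
    (bil tr ξ (n - 2 * j) ((-1) ^ j)) hrat
    (by
      intro x y hx _
      rw [bil_apply, bil_apply, H.comm hx.1])
    (by
      intro x hx hx0
      rw [bil_apply]
      exact hlow x hx.1 hx.2 hx0)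
  have hy1 : y ∈ span ℂ (Set.range e) := by
    have h1 := H.vv_le hj hy
    refine (span_le.2 ?_) h1
    intro x hx
    obtain ⟨r, hr⟩ := hspan x (subset_span hx) (fun k => hrat _ _ hx (he k))
    rw [hr]
    exact sum_mem (fun k _ => smul_mem _ _ (subset_span ⟨k, rfl⟩))
  rw [mem_span_range_iff_exists_fun] at hy1
  obtain ⟨t, ht⟩ := hy1
  have hdd : ∀ (s : Finset (Fin d)), ∑ k ∈ s, t k • e k ∈ DD N j := fun s =>
    sum_mem (fun k _ => smul_mem _ _ (sub_dd (he k).1))
  have hccs : ∀ (s : Finset (Fin d)), cc n tr ξ N j (∑ k ∈ s, t k • e k) =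
      ∑ k ∈ s, conj (t k) • e k := by
    intro s
    classical
    induction s using Finset.induction_on with
    | empty => rw [Finset.sum_empty, Finset.sum_empty, H.cc_zero hj]
    | insert a s ha ih =>
      rw [Finset.sum_insert ha, Finset.sum_insert ha,
        H.cc_add hj (smul_mem _ _ (sub_dd (he a).1)) (hdd s), ih,
        H.cc_smul hj _ (sub_dd (he a).1), H.cc_N hj (he a).1]
  have hcy : cc n tr ξ N j y = ∑ k, conj (t k) • e k := by
    rw [← ht]
    exact hccs Finset.univ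
  have hval : (-1 : ℂ) ^ j * tr (cc n tr ξ N j y * y * ξ ^ (n - 2 * j)) =
      ((∑ k, Complex.normSq (t k) * (w k : ℝ) : ℝ) : ℂ) := by
    rw [← bil_apply, hcy, map_sum (bil tr ξ (n - 2 * j) ((-1) ^ j)), LinearMap.sum_apply,
      Complex.ofReal_sum]
    apply Finset.sum_congr rfl
    intro k _
    rw [map_smul, LinearMap.smul_apply, ← ht, map_sum, Finset.sum_eq_single k]
    · rw [map_smul, horth, if_pos rfl, smul_eq_mul, smul_eq_mul, Complex.ofReal_mul,
        Complex.normSq_eq_conj_mul_self]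
      push_cast
      ring
    · intro l _ hl
      rw [map_smul, horth, if_neg (Ne.symm hl), smul_zero]
    · intro h0; exact absurd (Finset.mem_univ _) h0
  rw [hval, Complex.ofReal_re]
  obtain ⟨k, hk⟩ : ∃ k, t k ≠ 0 := by
    by_contra h0
    push Not at h0
    apply hy0
    rw [← ht]
    apply Finset.sum_eq_zero
    intro k _
    rw [h0 k, zero_smul]
  apply Finset.sum_pos'
  · intro k _
    exact mul_nonneg (Complex.normSq_nonneg _) (by exact_mod_cast (hw k).le)
  · exact ⟨k, Finset.mem_univ _, mul_pos (Complex.normSq_pos.2 hk) (by exact_mod_cast hw k)⟩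

end HRCore

end Pool.Agent.Y103
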