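import Pool.Agent.H90.G.S8.Y103.HRDefs
import Pool.Agent.H90.G.S8.Y103.HRMain
import Pool.Agent.H90.G.S8.W552.AS
import Pool.Agent.H90.G.S8.H914R2.GBasic

/-!
# The standard conjecture of Hodge type for classes generated in low codimension
-/

open CategoryTheory AlgebraicGeometry ComplexConjugate Submodule

universe u v

namespace Pool.Agent.Y103

open Pool.Agent.H914 Pool.Agent.H914.VarClass Pool.Agent.H914.VarClass.Obj
  Pool.Agent.H914.WeilCohomology Pool.Agent.H281R3.HT Pool.Agent.W552

section Span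

variable {K : Type*} [Field K] {A : Type*} [Ring A] [Algebra K A]

/-- The algebra with coefficients changed through an isomorphism of fields. -/
@[reducible] noncomputable def algC (ι : K ≃+* ℂ) : Algebra ℂ A :=
  Algebra.compHom A (ι.symm : ℂ →+* K)

lemma smul_algC (ι : K ≃+* ℂ) (s : ℂ) (a : A) :
    letI := algC (A := A) ι
    s • a = (ι.symm s) • a := rfl

lemma mem_spanC (ι : K ≃+* ℂ) (S : Set A) (x : A) :
    letI := algC (A := A) ι
    x ∈ span ℂ S ↔ x ∈ span K S := by
  let _ := algC (A := A) ι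
  constructor
  · intro hx
    induction hx using span_induction with
    | mem x hx => exact subset_span hx
    | zero => exact zero_mem _
    | add x y _ _ h1 h2 => exact add_mem h1 h2
    | smul s x _ h1 =>
      rw [smul_algC]
      exact smul_mem _ _ h1
  · intro hx
    induction hx using span_induction with
    | mem x hx => exact subset_span hx
    | zero => exact zero_mem _
    | add x y _ _ h1 h2 => exact add_mem h1 h2
    | smul s x _ h1 =>
      have : s • x = (ι s) • x := by rw [smul_algC, ι.symm_apply_apply]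
      rw [this]
      exact smul_mem _ _ h1

lemma finite_algC [Module.Finite K A] (ι : K ≃+* ℂ) :
    letI := algC (A := A) ι
    Module.Finite ℂ A := by
  let _ := algC (A := A) ι
  obtain ⟨s, hs⟩ := (Module.finite_def (R := K) (M := A)).1 inferInstance
  refine ⟨⟨s, ?_⟩⟩
  rw [eq_top_iff]
  intro x _
  rw [mem_spanC, hs]
  trivial

/-- The functional with values in the complex numbers. -/
noncomputable def trC (ι : K ≃+* ℂ) (tr : A →ₗ[K] K) :
    letI := algC (A := A) ι
    A →ₗ[ℂ] ℂ :=
  let _ := algC (A := A) ι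
  { toFun := fun a => ι (tr a)
    map_add' := fun a b => by rw [map_add, map_add]
    map_smul' := fun s a => by
      rw [smul_algC, map_smul, smul_eq_mul, map_mul, ι.apply_symm_apply]
      rfl }

end Span

/-- The rational combinations of the monomials of degree `j`. -/
inductive RatMon (K : Type*) [Field K] {A : Type*} [Ring A] [Algebra K A] (R : ℕ → Set A) (m : ℕ)
    (j : ℕ) : A → Prop
  | zero : RatMon K R m j 0
  | mon {x : A} : IsMonomial R m j x → RatMon K R m j x
  | add {x y : A} : RatMon K R m j x → RatMon K R m j y → RatMon K R m j (x + y)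
  | smul (q : ℚ) {x : A} : RatMon K R m j x → RatMon K R m j ((q : K) • x)

section RM

variable {K : Type*} [Field K] {A : Type*} [Ring A] [Algebra K A] {R : ℕ → Set A} {m : ℕ}

lemma IsMonomial.mul' {i j : ℕ} {x y : A} (hx : IsMonomial R m i x) (hy : IsMonomial R m j y) :
    IsMonomial R m (i + j) (x * y) := by
  induction hx with
  | one => rw [zero_add, one_mul]; exact hy
  | mul h1 h2 h3 _ ih => rw [add_assoc, mul_assoc]; exact IsMonomial.mul h1 h2 h3 ih

lemma RatMon.mul {i j : ℕ} {x y : A} (hx : RatMon K R m i x) (hy : RatMon K R m j y) :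
    RatMon K R m (i + j) (x * y) := by
  induction hx with
  | zero => rw [zero_mul]; exact RatMon.zero
  | mon h =>
    induction hy with
    | zero => rw [mul_zero]; exact RatMon.zero
    | mon h' => exact RatMon.mon (h.mul' h')
    | add _ _ h1 h2 => rw [mul_add]; exact RatMon.add h1 h2
    | smul q _ h1 => rw [mul_smul_comm]; exact RatMon.smul q h1
  | add _ _ h1 h2 => rw [add_mul]; exact RatMon.add h1 h2
  | smul q _ h1 => rw [smul_mul_assoc]; exact RatMon.smul q h1

lemma RatMon.mem_genRing {j : ℕ} {x : A} (hx : RatMon K R m j x) : x ∈ genRing K R m j := by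
  induction hx with
  | zero => exact zero_mem _
  | mon h => exact subset_span h
  | add _ _ h1 h2 => exact add_mem h1 h2
  | smul q _ h1 => exact smul_mem _ _ h1

lemma span_ratMon (j : ℕ) : span K {x | RatMon K R m j x} = genRing K R m j := by
  apply le_antisymm
  · exact span_le.2 (fun x hx => hx.mem_genRing)
  · exact span_mono (fun x hx => RatMon.mon hx)

end RM

variable {k : Type u} [Field k] {𝒱 : VarClass k} {ops : CycleOps 𝒱}
  {W : WeilCohomology.{u, v} ops} {X : 𝒱.Obj} {D : X.Cycles} {R : ℕ → Set (W.H X)} {m : ℕ}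

lemma RatMon.alg (hR : ∀ i, R i ⊆ algClasses W X i) {j : ℕ} {x : W.H X}
    (hx : RatMon W.K R m j x) : x ∈ algClasses W X j := by
  induction hx with
  | zero => exact alg_zero _
  | mon h =>
    induction h with
    | one => exact alg_one
    | mul _ _ h3 _ ih => exact alg_mul (hR _ h3) ih
  | add _ _ h1 h2 => exact alg_add h1 h2
  | smul q _ h1 => exact alg_smul q h1

lemma alg_cycle {j : ℕ} {x : W.H X} (hx : x ∈ algClasses W X j) :
    ∃ z, X.IsCyc j z ∧ W.cl X z = x := hx

lemma mulLeft_pow_apply' (x : W.H X) (r : ℕ) (y : W.H X) :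
    (LinearMap.mulLeft W.K x ^ r) y = x ^ r * y := by
  rw [LinearMap.pow_mulLeft, LinearMap.mulLeft_apply]

lemma genRing_gr (hR : ∀ i, R i ⊆ algClasses W X i) {j : ℕ} {x : W.H X}
    (hx : x ∈ genRing W.K R m j) : x ∈ W.gr X (2 * j) := by
  refine (span_le.2 ?_) hx
  intro y hy
  exact alg_gr ((RatMon.mon (K := W.K) hy).alg hR)

/-- The degree of a product of cycles. -/
lemma deg_eq {i j : ℕ} {z w : X.Cycles} (hz : X.IsCyc i z) (hw : X.IsCyc j w)
    (hij : i + j = X.dim) : W.tr X (W.cl X z * W.cl X w) = (X.V.degCycle (ops.mul z w) : W.K) := by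
  rw [← W.cl_mul]
  apply W.tr_cl
  rw [← hij]
  exact ops.mul_mem hz hw

variable {ι : W.K ≃+* ℂ} {c : W.H X → W.H X}

namespace IsHodgeRiemann

variable (hc : IsHodgeRiemann (W.gr X) X.dim (W.tr X) (W.cl X D) ι c)

include hc

lemma one : c 1 = 1 := by
  have h1 : c (c 1) = 1 := hc.invol 0 1 (W.one_mem X)
  have h2 := hc.mul 1 (c 1)
  rw [one_mul, h1, mul_one] at h2
  exact h2.symm

lemma zero : c 0 = 0 := by
  have := hc.smul 0 0
  simpa using this

lemma pow (r : ℕ) : c (W.cl X D ^ r) = W.cl X D ^ r := by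
  induction r with
  | zero => rw [pow_zero]; exact hc.one
  | succ r ih => rw [pow_succ, hc.mul, ih, hc.polar]

lemma mem_genRing (hcR : RingStable W.K R m c) {j : ℕ}
    {x : W.H X} (hx : x ∈ genRing W.K R m j) : c x ∈ genRing W.K R m j := by
  have hmul : ∀ {i j : ℕ} {x y : W.H X}, x ∈ genRing W.K R m i → y ∈ genRing W.K R m j →
      x * y ∈ genRing W.K R m (i + j) := by
    intro i j x y hx hy
    induction hx using span_induction with
    | mem x hx =>
      induction hy using span_induction with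
      | mem y hy => exact subset_span (hx.mul' hy)
      | zero => rw [mul_zero]; exact zero_mem _
      | add a b _ _ h1 h2 => rw [mul_add]; exact add_mem h1 h2
      | smul s a _ h1 => rw [mul_smul_comm]; exact smul_mem _ _ h1
    | zero => rw [zero_mul]; exact zero_mem _
    | add a b _ _ h1 h2 => rw [add_mul]; exact add_mem h1 h2
    | smul s a _ h1 => rw [smul_mul_assoc]; exact smul_mem _ _ h1
  induction hx using span_induction with
  | mem x hx =>
    induction hx with
    | one => rw [hc.one]; exact subset_span IsMonomial.one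
    | mul h1 h2 h3 _ ih => rw [hc.mul]; exact hmul (hcR _ h1 h2 _ h3) ih
  | zero => rw [hc.zero]; exact zero_mem _
  | add a b _ _ h1 h2 => rw [hc.add]; exact add_mem h1 h2
  | smul s a _ h1 => rw [hc.smul]; exact smul_mem _ _ h1

end IsHodgeRiemann

/-- A class of the top degree with trace zero vanishes. -/
lemma top_eq_zero {a : W.H X} (ha : a ∈ W.gr X (2 * X.dim)) (h : W.tr X a = 0) : a = 0 := by
  apply W.nondeg
  intro b
  refine gr_induction (W.isInternal X) (p := fun b => W.tr X (a * b) = 0) ?_ ?_ b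
  · intro i b hb
    by_cases hi : i = 0
    · subst hi
      rw [W.gr_zero, mem_span_singleton] at hb
      obtain ⟨s, rfl⟩ := hb
      rw [mul_smul_comm, mul_one, map_smul, h, smul_zero]
    · exact W.tr_eq_zero (W.mul_mem ha hb) (by omega)
  · intro b b' h1 h2
    rw [mul_add, map_add, h1, h2, add_zero]

lemma pow_alg (hD : X.IsCyc 1 D) (r : ℕ) : W.cl X D ^ r ∈ algClasses W X r := by
  induction r with
  | zero => rw [pow_zero]; exact alg_one
  | succ r ih => rw [pow_succ]; exact alg_mul ih ⟨D, hD, rfl⟩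

lemma trace_conj (hD : X.IsCyc 1 D)
    (hc : IsHodgeRiemann (W.gr X) X.dim (W.tr X) (W.cl X D) ι c) {a : W.H X}
    (ha : a ∈ W.gr X (2 * X.dim)) : ι (W.tr X (c a)) = conj (ι (W.tr X a)) := by
  by_cases h1 : (1 : W.H X) = 0
  · have h0 : ∀ x : W.H X, x = 0 := fun x => by rw [← mul_one x, h1, mul_zero]
    rw [h0 a, h0 (c 0)]
    simp
  · have h2 := hc.pos 0 (by omega) 1 (W.one_mem X) (by
      have h3 := alg_gr (pow_alg (W := W) hD (X.dim - 2 * 0 + 1))
      rw [W.gr_eq_bot X _ (by omega)] at h3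
      rw [(mem_bot _).1 h3, zero_mul]) h1
    rw [hc.one, one_mul, one_mul, pow_zero, one_mul, mul_zero, Nat.sub_zero] at h2
    obtain ⟨q, hq⟩ := alg_rat (pow_alg (W := W) hD X.dim) (alg_one (W := W) (X := X))
    rw [bil_apply, mul_one] at hq
    have hq0 : W.tr X (W.cl X D ^ X.dim) ≠ 0 := by
      intro h0
      rw [h0, map_zero] at h2
      simp at h2
    set t := W.tr X a / W.tr X (W.cl X D ^ X.dim) with ht
    have ha' : a = t • W.cl X D ^ X.dim := by
      rw [← sub_eq_zero]
      apply top_eq_zero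
      · exact sub_mem ha (smul_mem _ _ (alg_gr (pow_alg hD X.dim)))
      · rw [map_sub, map_smul, smul_eq_mul, ht, div_mul_cancel₀ _ hq0, sub_self]
    rw [ha', hc.smul, hc.pow, map_smul (W.tr X), map_smul (W.tr X), smul_eq_mul, smul_eq_mul,
      map_mul ι, map_mul ι, ι.apply_symm_apply, hq, map_ratCast ι, map_mul (starRingEnd ℂ),
      map_ratCast (starRingEnd ℂ)]

/-- A graded ring of algebraic classes with rational coefficients. -/
structure RingOf (W : WeilCohomology.{u, v} ops) (X : 𝒱.Obj) (D : X.Cycles)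
    (N : ℕ → W.H X → Prop) : Prop where
  rat : ∀ j, RatSub W.K (N j)
  one : N 0 1
  xi : N 1 (W.cl X D)
  mul : ∀ {i j a b}, N i a → N j b → N (i + j) (a * b)
  alg : ∀ {j a}, N j a → a ∈ algClasses W X j

variable {N : ℕ → W.H X → Prop}

lemma RingOf.gr (hN : RingOf W X D N) {j : ℕ} {x : W.H X} (hx : x ∈ span W.K {y | N j y}) :
    x ∈ W.gr X (2 * j) := by
  refine (span_le.2 ?_) hx
  intro y hy
  exact alg_gr (hN.alg hy)

/-- The data of the abstract theorem. -/
theorem hrCore (hD : X.IsCyc 1 D) (hc : IsHodgeRiemann (W.gr X) X.dim (W.tr X) (W.cl X D) ι c)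
    (hN : RingOf W X D N)
    (hst : ∀ j, ∀ a ∈ span W.K {y | N j y}, c a ∈ span W.K {y | N j y})
    (hL : ∀ j, 2 * (j + 1) ≤ X.dim → ∀ a ∈ span W.K {y | N (j + 1) y},
      ∃ b ∈ span W.K {y | N j y},
        W.cl X D ^ (X.dim - 2 * (j + 1) + 1) * (a - W.cl X D * b) = 0) :
    letI := algC (A := W.H X) ι
    HRCore X.dim (trC ι (W.tr X)) (W.cl X D) N c := by
  let _ := algC (A := W.H X) ι
  have hDD : ∀ j x, x ∈ DD N j ↔ x ∈ span W.K {y | N j y} := fun j x => mem_spanC ι _ x
  have hgr : ∀ {j : ℕ} {x : W.H X}, x ∈ DD N j → x ∈ W.gr X (2 * j) := by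
    intro j x hx
    exact hN.gr ((hDD j x).1 hx)
  have htr : ∀ a, trC ι (W.tr X) a = ι (W.tr X a) := fun a => rfl
  refine
  { fin := finite_algC ι
    rat := fun j =>
      { zero := (hN.rat j).zero
        add := (hN.rat j).add
        smul := fun q x hx => ?_ }
    one := hN.one
    xi := hN.xi
    mul := hN.mul
    comm := fun h b => alg_even_comm (hN.alg h) b
    trq := ?_
    van := ?_
    lef := ?_
    cadd := hc.add
    csmul := ?_
    cmul := hc.mul
    cxi := hc.polar
    cmem := ?_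
    cinv := fun h => hc.invol _ _ (hgr h)
    ctr := ?_
    pos := ?_ }
  · rw [smul_algC, map_ratCast]
    exact (hN.rat j).smul q hx
  · intro a ha
    obtain ⟨q, hq⟩ := alg_rat (hN.alg ha) (alg_one (W := W) (X := X))
    refine ⟨q, ?_⟩
    rw [bil_apply, mul_one] at hq
    rw [htr, hq, map_ratCast]
  · intro j a hj ha
    have h1 := alg_gr (hN.alg ha)
    rw [W.gr_eq_bot X (2 * j) (by omega)] at h1
    exact (mem_bot _).1 h1
  · intro j hj a ha
    obtain ⟨b, hb, h⟩ := hL j hj a ((hDD _ _).1 ha)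
    exact ⟨b, (hDD _ _).2 hb, h⟩
  · intro s a
    rw [smul_algC, hc.smul, ι.apply_symm_apply, smul_algC]
  · intro j a ha
    exact (hDD _ _).2 (hst _ _ ((hDD _ _).1 ha))
  · intro a ha
    exact trace_conj hD hc (hgr ha)
  · intro j hj a ha h1 h2
    have h3 := hc.pos j hj a (hgr ha) h1 h2
    rw [htr]
    have h4 : (-1 : ℂ) ^ j = (((-1 : ℝ) ^ j : ℝ) : ℂ) := by push_cast; rfl
    rw [h4, Complex.re_ofReal_mul]
    exact h3

/-- Positivity for cycles in terms of the trace. -/
lemma low_of_hodge (hD : X.IsCyc 1 D) {j : ℕ} (hj : 2 * j ≤ X.dim) {z : X.Cycles}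
    (hz : X.IsCyc j z)
    (h : 0 < (-1 : ℚ) ^ j * X.V.degCycle (ops.mul z (divPow ops D (X.dim - 2 * j) z))) :
    letI := algC (A := W.H X) ι
    ∃ q : ℚ, 0 < q ∧ (-1 : ℂ) ^ j * trC ι (W.tr X)
      (W.cl X z * W.cl X z * W.cl X D ^ (X.dim - 2 * j)) = q := by
  let _ := algC (A := W.H X) ι
  refine ⟨_, h, ?_⟩
  have htr : ∀ a, trC ι (W.tr X) a = ι (W.tr X a) := fun a => rfl
  have h4 := deg_eq (W := W) hz (divPow_mem (ops := ops) hD (X.dim - 2 * j) hz) (by omega)
  rw [cl_divPow, mulLeft_pow_apply'] at h4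
  have h5 : W.cl X z * W.cl X z * W.cl X D ^ (X.dim - 2 * j) =
      W.cl X z * (W.cl X D ^ (X.dim - 2 * j) * W.cl X z) := by
    rw [mul_assoc, W.even_comm (W.cl_mem hz) (W.cl X D ^ (X.dim - 2 * j))]
  rw [htr, h5, h4, map_ratCast]
  push_cast
  rfl

/-- The standard conjectures from the abstract theorem. -/
theorem std_of_core (hD : X.IsCyc 1 D) (hN : RingOf W X D N)
    (H : letI := algC (A := W.H X) ι
      HRCore X.dim (trC ι (W.tr X)) (W.cl X D) N c)
    (hE : letI := algC (A := W.H X) ι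
      ∀ j, 2 * j ≤ X.dim → ∀ x ∈ DD N j,
        x ∈ span ℂ {v | HRCore.EE X.dim (trC ι (W.tr X)) (W.cl X D) N c j v}) :
    StdFor W X D (fun x => ∃ j ≤ X.dim / 2, x ∈ span W.K {y | N j y}) := by
  let _ := algC (A := W.H X) ι
  have hDD : ∀ j x, x ∈ DD N j ↔ x ∈ span W.K {y | N j y} := fun j x => mem_spanC ι _ x
  have htr : ∀ a, trC ι (W.tr X) a = ι (W.tr X a) := fun a => rfl
  -- a class of two degrees vanishes
  have hdeg : ∀ {i j : ℕ} {z : X.Cycles}, X.IsCyc i z → W.cl X z ∈ span W.K {y | N j y} →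
      W.cl X z ≠ 0 → i = j := by
    intro i j z hz h h0
    by_contra hij
    apply h0
    have h1 := W.cl_mem hz
    have h2 := hN.gr h
    have h3 := proj_same (W.isInternal X) h1
    have h4 := proj_ne (W.isInternal X) (j := 2 * i) h2 (by omega)
    rw [← h3, h4]
  have hrat : ∀ {j : ℕ} {z : X.Cycles}, X.IsCyc j z → 2 * j ≤ X.dim → ∀ w, N j w →
      ∃ w', X.IsCyc (X.dim - j) w' ∧ W.cl X z * w * W.cl X D ^ (X.dim - 2 * j) =
        W.cl X z * W.cl X w' := by
    intro j z hz hj w hw
    obtain ⟨w₀, hw₀, rfl⟩ := alg_cycle (hN.alg hw)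
    refine ⟨divPow ops D (X.dim - 2 * j) w₀, ?_, ?_⟩
    · have := divPow_mem (ops := ops) hD (X.dim - 2 * j) hw₀
      rwa [show j + (X.dim - 2 * j) = X.dim - j by omega] at this
    · rw [cl_divPow, mulLeft_pow_apply', mul_assoc, W.even_comm (W.cl_mem hw₀)]
  constructor
  · rintro j hj z hz ⟨j', -, hj'⟩ hp h0
    obtain rfl := hdeg hz hj' h0
    rw [cl_divPow, mulLeft_pow_apply'] at hp
    have h1 := H.pos_of_rat hj (hE j hj) ((hDD _ _).2 hj') hp h0 (by
      intro w hw
      obtain ⟨w', hw', h2⟩ := hrat hz hj w hw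
      refine ⟨X.V.degCycle (ops.mul z w'), ?_⟩
      rw [htr, h2, deg_eq hz hw' (by omega), map_ratCast])
    have h4 := deg_eq (W := W) hz (divPow_mem (ops := ops) hD (X.dim - 2 * j) hz) (by omega)
    rw [cl_divPow, mulLeft_pow_apply'] at h4
    have h5 : W.cl X z * W.cl X z * W.cl X D ^ (X.dim - 2 * j) =
        W.cl X z * (W.cl X D ^ (X.dim - 2 * j) * W.cl X z) := by
      rw [mul_assoc, W.even_comm (W.cl_mem hz) (W.cl X D ^ (X.dim - 2 * j))]
    rw [htr, h5, h4, map_ratCast] at h1
    have h6 : ((-1 : ℂ) ^ j * ((X.V.degCycle (ops.mul z (divPow ops D (X.dim - 2 * j) z)) : ℚ) :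
        ℂ)).re = (((-1 : ℚ) ^ j * X.V.degCycle (ops.mul z (divPow ops D (X.dim - 2 * j) z)) :
          ℚ) : ℝ) := by
      rw [← Complex.ofReal_re (((-1 : ℚ) ^ j *
        X.V.degCycle (ops.mul z (divPow ops D (X.dim - 2 * j) z)) : ℚ) : ℝ)]
      congr 1
      push_cast
      rfl
    rw [h6] at h1
    exact_mod_cast h1
  · rintro j hj z hz ⟨j', hj2, hj'⟩ h
    by_contra h0
    obtain rfl := hdeg hz hj' h0
    apply h0
    apply H.nd (by omega) ((hDD _ _).2 hj')
    intro w hw
    obtain ⟨w', hw', h2⟩ := hrat hz (by omega) w hw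
    rw [htr, h2, deg_eq hz hw' (by omega), h w' hw']
    simp

/-- The ring generated by sets of algebraic classes. -/
lemma ringOf_ratMon (hm : 1 ≤ m) (hR : ∀ i, R i ⊆ algClasses W X i) (hDR : W.cl X D ∈ R 1) :
    RingOf W X D (RatMon W.K R m) where
  rat j :=
    { zero := RatMon.zero
      add := fun h1 h2 => RatMon.add h1 h2
      smul := fun q _ hx => RatMon.smul q hx }
  one := RatMon.mon IsMonomial.one
  xi := by
    have := IsMonomial.mul (R := R) (m := m) le_rfl hm hDR IsMonomial.one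
    rw [mul_one] at this
    exact RatMon.mon this
  mul h1 h2 := h1.mul h2
  alg h := h.alg hR

/-- The data of the abstract theorem for the ring generated by sets of algebraic classes. -/
theorem hrCore_gen (hD : X.IsCyc 1 D)
    (hc : IsHodgeRiemann (W.gr X) X.dim (W.tr X) (W.cl X D) ι c) (hm : 1 ≤ m)
    (hR : ∀ i, R i ⊆ algClasses W X i) (hDR : W.cl X D ∈ R 1)
    (hcR : RingStable W.K R m c) (hL : LefschetzStable W.K R m X.dim (W.cl X D)) :
    letI := algC (A := W.H X) ι
    HRCore X.dim (trC ι (W.tr X)) (W.cl X D) (RatMon W.K R m) c := by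
  refine hrCore hD hc (ringOf_ratMon hm hR hDR) ?_ ?_
  · intro j a ha
    rw [span_ratMon] at ha ⊢
    exact hc.mem_genRing hcR ha
  · intro j hj a ha
    rw [span_ratMon] at ha
    obtain ⟨b, hb, h⟩ := hL j hj a ha
    exact ⟨b, by rw [span_ratMon]; exact hb, h⟩

/-- The data of the abstract theorem. -/
theorem hrData (hD : X.IsCyc 1 D)
    (hc : IsHodgeRiemann (W.gr X) X.dim (W.tr X) (W.cl X D) ι c) (hm : 1 ≤ m)
    (hR : ∀ i, R i ⊆ algClasses W X i) (hDR : W.cl X D ∈ R 1)
    (hcR : RingStable W.K R m c)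
    (hL : LefschetzStable W.K R m X.dim (W.cl X D))
    (hS : HodgeTypeFor W X D (InRing W.K R m m)) :
    letI := algC (A := W.H X) ι
    HRData X.dim m (trC ι (W.tr X)) (W.cl X D) (RatMon W.K R m) c := by
  let _ := algC (A := W.H X) ι
  refine { hrCore_gen hD hc hm hR hDR hcR hL with gen := ?_, low := ?_ }
  · intro j x hj hx
    rw [mem_spanC]
    induction hx with
    | zero => exact zero_mem _
    | mon h =>
      cases h with
      | one => omega
      | mul h1 h2 h3 h4 =>
        apply subset_span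
        refine ⟨_, _, _, h1, h2, by omega, ?_, ?_, rfl⟩
        · have := IsMonomial.mul h1 h2 h3 IsMonomial.one
          rw [mul_one, add_zero] at this
          exact RatMon.mon this
        · rw [Nat.add_sub_cancel_left]
          exact RatMon.mon h4
    | add _ _ h1 h2 => exact add_mem h1 h2
    | smul q _ h1 => exact smul_mem _ _ h1
  · intro j hjm hj a ha h1 h2
    obtain ⟨z, hz, rfl⟩ := alg_cycle (ha.alg hR)
    exact low_of_hodge hD hj hz (hS j hj z hz ⟨j, hjm, ha.mem_genRing⟩ (by
      rw [cl_divPow, mulLeft_pow_apply']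
      exact h1) h2)

/-- **The standard conjectures of Hodge type and `D` for classes generated in low
codimension.** -/
theorem hodge_generated (hD : X.IsCyc 1 D) (hc : HodgeRiemann W X D ι c) (hm : 1 ≤ m)
    (hR : ∀ i, R i ⊆ algClasses W X i) (hDR : W.cl X D ∈ R 1)
    (hcR : RingStable W.K R m c)
    (hL : LefschetzStable W.K R m X.dim (W.cl X D))
    (hS : HodgeTypeFor W X D (InRing W.K R m m)) :
    StdFor W X D (InRing W.K R m (X.dim / 2)) := by
  let _ := algC (A := W.H X) ι
  have H := hrData hD hc hm hR hDR hcR hL hS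
  have h1 := std_of_core hD (ringOf_ratMon hm hR hDR) H.toHRCore H.dd_ee
  have h2 : (fun x => ∃ j ≤ X.dim / 2, x ∈ span W.K {y | RatMon W.K R m j y}) =
      InRing W.K R m (X.dim / 2) := by
    funext x
    simp only [span_ratMon]
    rfl
  rwa [h2] at h1

end Pool.Agent.Y103
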